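import Pool.Agent.Lib.MP_0c183c_co_P9F.Far
import Pool.Agent.Lib.MP_0c183c_TD.Tan
import Pool.Agent.Lib.MP_0c183c_co_P9T.Row

set_option autoImplicit false
set_option linter.style.haveILetI false
set_option linter.unusedSectionVars false

/-!
# Bridges: dimension of tangent spaces = rank function; naturality under automorphisms
-/

namespace Pool.Agent.Lib.MP_0c183c_co_P9F

open Pool.Agent.Lib.MP_0c183c_co_P9W Pool.Agent.Lib.MP_0c183c_co_P9G MvPolynomial
open Pool.Agent.Lib.MP_0c183c_co_P9L (trd trd_eq_toNat_trdeg)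
open Pool.Agent.Lib.MP_0c183c_co_P9T (Pr off allp fam Sp Tan dd dual mem_Tan mem_Tan_iff_Sp
  fst_aeval_dual rowv rowL Dab mem_Dab)

section general

variable {k Ω : Type*} [Field k] [Field Ω] [Algebra k Ω] {s : Type*}

/-- The two versions of the tangent space agree. -/
theorem Tan_eq [Fintype s] (x : s → Ω) : Tan k x = Pool.Agent.Lib.MP_0c183c_TD.Tan k x := by
  ext v
  rw [mem_Tan, Pool.Agent.Lib.MP_0c183c_TD.mem_tan']
  refine forall_congr' fun p => forall_congr' fun _ => ?_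
  have h : dd k x v p = Pool.Agent.Lib.MP_0c183c_TD.dd x v p := by
    have h1 := Pool.Agent.Lib.MP_0c183c_TD.aeval_dual x v p
    have h2 := congrArg TrivSqZeroExt.snd h1
    rw [TrivSqZeroExt.snd_add, TrivSqZeroExt.snd_inl, TrivSqZeroExt.snd_inr, zero_add] at h2
    exact h2
  rw [h]

/-- The dimension of the tangent space of the locus of a finite family at this family is the
transcendence degree of the family, for a perfect base field. -/
theorem finrank_Tan [Finite s] [PerfectField k] (x : s → Ω) :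
    Module.finrank Ω (Tan k x) = trd k (Set.range x) := by
  cases nonempty_fintype s
  rw [Tan_eq, Pool.Agent.Lib.MP_0c183c_TD.finrank_tan, trd_eq_toNat_trdeg (Set.finite_range x)]

instance [Finite s] (x : s → Ω) : FiniteDimensional Ω (Tan k x) := by
  cases nonempty_fintype s
  infer_instance

theorem dd_map {Ω' : Type*} [Field Ω'] [Algebra k Ω'] (σ : Ω →ₐ[k] Ω') (x v : s → Ω)
    (p : MvPolynomial s k) :
    dd k (fun i => σ (x i)) (fun i => σ (v i)) p = σ (dd k x v p) := by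
  letI : Algebra Ω Ω' := σ.toRingHom.toAlgebra
  haveI : IsScalarTower k Ω Ω' := IsScalarTower.of_algebraMap_eq fun r => (σ.commutes r).symm
  exact Pool.Agent.Lib.MP_0c183c_co_P9T.dd_algebraMap (F := Ω) (Ω := Ω') x v p

/-- Naturality of the tangent space under homomorphisms of fields. -/
theorem map_mem_Tan {Ω' : Type*} [Field Ω'] [Algebra k Ω'] (σ : Ω →ₐ[k] Ω') {x v : s → Ω} :
    (fun i => σ (v i)) ∈ Tan k (fun i => σ (x i)) ↔ v ∈ Tan k x := by
  rw [mem_Tan, mem_Tan]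
  refine forall_congr' fun p => ?_
  have h : aeval (fun i => σ (x i)) p = σ (aeval x p) :=
    (MvPolynomial.comp_aeval_apply x σ p).symm
  rw [h, dd_map, map_eq_zero_iff σ σ.injective, map_eq_zero_iff σ σ.injective]

end general

section prime

variable {Ω : Type*} [Field Ω] [Algebra (ZMod 2) Ω]

/-- A ring automorphism is linear over the prime field. -/
noncomputable def toAlg (σ : Ω ≃+* Ω) : Ω ≃ₐ[ZMod 2] Ω :=
  { σ with
    commutes' := fun r => DFunLike.congr_fun
      (Subsingleton.elim ((σ : Ω →+* Ω).comp (algebraMap (ZMod 2) Ω)) (algebraMap (ZMod 2) Ω)) r }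

theorem toAlg_apply (σ : Ω ≃+* Ω) (z : Ω) : toAlg σ z = σ z := rfl

/-- Naturality, ring automorphisms. -/
theorem map_mem_Tan_ringEquiv {s : Type*} (σ : Ω ≃+* Ω) {x v : s → Ω} :
    (fun i => σ (v i)) ∈ Tan (ZMod 2) (fun i => σ (x i)) ↔ v ∈ Tan (ZMod 2) x :=
  map_mem_Tan (toAlg σ : Ω →ₐ[ZMod 2] Ω)

variable {ι : Type*}

/-- Naturality for families of entries of arrays. -/
theorem map_mem_Tan_fam (σ : Ω ≃+* Ω) {B : Set (Pr ι)} {M M' : ι × Bool → ι × Bool → Ω}
    (h : ∀ p ∈ B, σ (M p.1 p.2) = M' p.1 p.2) {v : B → Ω} :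
    (fun i => σ (v i)) ∈ Tan (ZMod 2) (fam B M') ↔ v ∈ Tan (ZMod 2) (fam B M) := by
  have h1 : fam B M' = fun i => σ (fam B M i) := by
    funext i
    exact (h i.1 i.2).symm
  rw [h1]
  exact map_mem_Tan_ringEquiv σ

/-- Naturality for families of entries: vectors given by arrays. -/
theorem map_fam_mem_Tan_fam (σ : Ω ≃+* Ω) {B : Set (Pr ι)} {M M' v v' : ι × Bool → ι × Bool → Ω}
    (h : ∀ p ∈ B, σ (M p.1 p.2) = M' p.1 p.2) (hv : ∀ p ∈ B, σ (v p.1 p.2) = v' p.1 p.2) :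
    fam B v' ∈ Tan (ZMod 2) (fam B M') ↔ fam B v ∈ Tan (ZMod 2) (fam B M) := by
  have h1 : fam B v' = fun i => σ (fam B v i) := by
    funext i
    exact (hv i.1 i.2).symm
  rw [h1]
  exact map_mem_Tan_fam σ h

variable [DecidableEq ι]

/-- Naturality of `rowv`. -/
theorem map_rowv (σ : Ω ≃+* Ω) {M M' : ι × Bool → ι × Bool → Ω} {a b : ι}
    (x y : ι × Bool)
    (h1 : x.1 = a → y.1 ≠ a → ∀ j, σ (M (b, j) y) = M' (b, j) y)
    (h2 : x.1 ≠ a → y.1 = a → ∀ j, σ (M x (b, j)) = M' x (b, j))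
    (δ : Bool × Bool → Ω) :
    σ (rowv M b a δ x y) = rowv M' b a (fun p => σ (δ p)) x y := by
  unfold rowv
  by_cases hx : x.1 = a
  · by_cases hy : y.1 = a
    · simp [hx, hy]
    · simp only [if_pos hx, if_neg hy, map_add, map_mul, h1 hx hy]
  · by_cases hy : y.1 = a
    · simp only [if_neg hx, if_pos hy, map_add, map_mul, h2 hx hy]
    · simp [hx, hy]

/-- Naturality of `Dab`. -/
theorem map_mem_Dab (σ : Ω ≃+* Ω) {B : Set (Pr ι)} {M M' : ι × Bool → ι × Bool → Ω} {a b : ι}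
    (h : ∀ p ∈ B, σ (M p.1 p.2) = M' p.1 p.2)
    (h1 : ∀ p ∈ B, p.1.1 = a → p.2.1 ≠ a → ∀ j, σ (M (b, j) p.2) = M' (b, j) p.2)
    (h2 : ∀ p ∈ B, p.1.1 ≠ a → p.2.1 = a → ∀ j, σ (M p.1 (b, j)) = M' p.1 (b, j))
    {δ : Bool × Bool → Ω} :
    (fun q => σ (δ q)) ∈ Dab (ZMod 2) B M' a b ↔ δ ∈ Dab (ZMod 2) B M a b := by
  rw [mem_Dab, mem_Dab]
  exact map_fam_mem_Tan_fam σ h fun p hp => map_rowv σ p.1 p.2 (h1 p hp) (h2 p hp) δ

/-- The image of a subspace of `m → Ω` under a ring automorphism of `Ω`. -/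
def mapσ {m : Type*} (σ : Ω ≃+* Ω) (D : Submodule Ω (m → Ω)) : Submodule Ω (m → Ω) where
  carrier := {v | (fun i => σ.symm (v i)) ∈ D}
  add_mem' := by
    intro v w hv hw
    have := D.add_mem hv hw
    have e : (fun i => σ.symm ((v + w) i)) = (fun i => σ.symm (v i)) + fun i => σ.symm (w i) := by
      funext i
      simp
    change (fun i => σ.symm ((v + w) i)) ∈ D
    rw [e]
    exact this
  zero_mem' := by
    change (fun i => σ.symm ((0 : m → Ω) i)) ∈ D
    have e : (fun i => σ.symm ((0 : m → Ω) i)) = 0 := by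
      funext i
      simp
    rw [e]
    exact D.zero_mem
  smul_mem' := by
    intro c v hv
    have := D.smul_mem (σ.symm c) hv
    have e : (fun i => σ.symm ((c • v) i)) = σ.symm c • fun i => σ.symm (v i) := by
      funext i
      simp
    change (fun i => σ.symm ((c • v) i)) ∈ D
    rw [e]
    exact this

theorem mem_mapσ {m : Type*} {σ : Ω ≃+* Ω} {D : Submodule Ω (m → Ω)} {v : m → Ω} :
    v ∈ mapσ σ D ↔ (fun i => σ.symm (v i)) ∈ D := Iff.rfl

theorem map_mem_mapσ {m : Type*} {σ : Ω ≃+* Ω} {D : Submodule Ω (m → Ω)} {v : m → Ω} :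
    (fun i => σ (v i)) ∈ mapσ σ D ↔ v ∈ D := by
  rw [mem_mapσ]
  simp

/-- The dimension is preserved. -/
theorem finrank_mapσ {m : Type*} (σ : Ω ≃+* Ω) (D : Submodule Ω (m → Ω)) :
    Module.finrank Ω (mapσ σ D) = Module.finrank Ω D := by
  let j : D ≃+ mapσ σ D :=
    { toFun := fun v => ⟨fun i => σ (v.1 i), map_mem_mapσ.2 v.2⟩
      invFun := fun w => ⟨fun i => σ.symm (w.1 i), w.2⟩
      left_inv := by
        intro v
        apply Subtype.ext
        funext i
        simp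
      right_inv := by
        intro v
        apply Subtype.ext
        funext i
        simp
      map_add' := by
        intro v w
        apply Subtype.ext
        funext i
        simp }
  have h := rank_eq_of_equiv_equiv (fun z : Ω => σ z) j σ.bijective (by
    intro r v
    apply Subtype.ext
    funext i
    simp [j])
  exact (congrArg Cardinal.toNat h).symm

/-- `Tan` and `mapσ`. -/
theorem mapσ_Tan_fam (σ : Ω ≃+* Ω) {B : Set (Pr ι)} {M M' : ι × Bool → ι × Bool → Ω}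
    (h : ∀ p ∈ B, σ (M p.1 p.2) = M' p.1 p.2) :
    mapσ σ (Tan (ZMod 2) (fam B M)) = Tan (ZMod 2) (fam B M') := by
  ext v
  rw [mem_mapσ, ← map_mem_Tan_fam σ h]
  simp

/-- `Dab` and `mapσ`. -/
theorem mapσ_Dab (σ : Ω ≃+* Ω) {B : Set (Pr ι)} {M M' : ι × Bool → ι × Bool → Ω} {a b : ι}
    (h : ∀ p ∈ B, σ (M p.1 p.2) = M' p.1 p.2)
    (h1 : ∀ p ∈ B, p.1.1 = a → p.2.1 ≠ a → ∀ j, σ (M (b, j) p.2) = M' (b, j) p.2)
    (h2 : ∀ p ∈ B, p.1.1 ≠ a → p.2.1 = a → ∀ j, σ (M p.1 (b, j)) = M' p.1 (b, j)) :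
    mapσ σ (Dab (ZMod 2) B M a b) = Dab (ZMod 2) B M' a b := by
  ext v
  rw [mem_mapσ, ← map_mem_Dab σ h h1 h2]
  simp

/-- The dimension of `Dab` is preserved. -/
theorem finrank_Dab_eq (σ : Ω ≃+* Ω) {B : Set (Pr ι)} {M M' : ι × Bool → ι × Bool → Ω} {a b : ι}
    (h : ∀ p ∈ B, σ (M p.1 p.2) = M' p.1 p.2)
    (h1 : ∀ p ∈ B, p.1.1 = a → p.2.1 ≠ a → ∀ j, σ (M (b, j) p.2) = M' (b, j) p.2)
    (h2 : ∀ p ∈ B, p.1.1 ≠ a → p.2.1 = a → ∀ j, σ (M p.1 (b, j)) = M' p.1 (b, j)) :
    Module.finrank Ω (Dab (ZMod 2) B M' a b) = Module.finrank Ω (Dab (ZMod 2) B M a b) := by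
  rw [← mapσ_Dab σ h h1 h2, finrank_mapσ]

end prime

section world

variable (W : World)

/-- The dimension of the tangent space of the blocks `X` is their rank. -/
theorem finrank_Tan_ix (T : Finset ℚ) (X : Finset (Sym2 ℚ)) :
    Module.finrank W.Ω (Tan (ZMod 2) (fam (ix X) (W.P T))) = rkW W T X :=
  finrank_Tan _

/-- The dimension of the tangent space of the array over `I` is its rank. -/
theorem finrank_Tan_off (T I : Finset ℚ) :
    Module.finrank W.Ω (Tan (ZMod 2) (fam (off I) (W.P T))) = rkW W T (prs I) := by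
  rw [off_eq]
  exact finrank_Tan_ix W T (prs I)

/-- In far worlds. -/
theorem finrank_Tan_far {T I : Finset ℚ} (h : Far W T I) :
    Module.finrank W.Ω (Tan (ZMod 2) (fam (off I) (W.P T))) = rkL W (prs I) := by
  rw [finrank_Tan_off, h.2]

end world

end Pool.Agent.Lib.MP_0c183c_co_P9F
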