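import Mathlib

set_option autoImplicit false

/-!
# Extension of finite increasing maps to order automorphisms of `ℚ`
-/

namespace Pool.Agent.Lib.MP_0c183c_co_P9F

/-- Stretch the half line above `c` by the factor `l`. -/
def stretch (c l x : ℚ) : ℚ := if x ≤ c then x else c + l * (x - c)

theorem stretch_strictMono (c : ℚ) {l : ℚ} (hl : 0 < l) : StrictMono (stretch c l) := by
  intro x y hxy
  unfold stretch
  split_ifs with h1 h2 h2
  · exact hxy
  · push Not at h2
    nlinarith [mul_pos hl (sub_pos.2 h2)]
  · exact absurd (hxy.le.trans h2) h1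
  · have := mul_lt_mul_of_pos_left (sub_lt_sub_right hxy c) hl
    linarith

theorem stretch_surj (c : ℚ) {l : ℚ} (hl : 0 < l) : Function.Surjective (stretch c l) := by
  intro y
  by_cases h : y ≤ c
  · exact ⟨y, by simp [stretch, h]⟩
  · push Not at h
    refine ⟨c + l⁻¹ * (y - c), ?_⟩
    have h1 : 0 < l⁻¹ * (y - c) := mul_pos (inv_pos.2 hl) (sub_pos.2 h)
    have h2 : ¬ (c + l⁻¹ * (y - c) ≤ c) := by linarith
    rw [stretch, if_neg h2]
    have : l * (c + l⁻¹ * (y - c) - c) = y - c := by
      field_simp
      ring
    rw [this]
    ring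

/-- Every map which is strictly increasing on a finite set of rationals is the restriction of an
order automorphism of `ℚ`. -/
theorem exists_orderIso_extend (T : Finset ℚ) (f : ℚ → ℚ) (hf : StrictMonoOn f (T : Set ℚ)) :
    ∃ g : ℚ ≃o ℚ, ∀ x ∈ T, g x = f x := by
  classical
  induction T using Finset.induction_on_max with
  | empty => exact ⟨OrderIso.refl ℚ, by simp⟩
  | insert a T ha ih =>
    obtain ⟨g, hg⟩ := ih (hf.mono (by simp [Finset.coe_insert]))
    by_cases hT : T.Nonempty
    · set m := T.max' hT with hm
      have hmT : m ∈ T := Finset.max'_mem T hT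
      have hma : m < a := ha m hmT
      have h1 : f m < f a := hf (by simp [hmT]) (by simp) hma
      have h2 : g m < g a := g.strictMono hma
      have h3 : g m = f m := hg m hmT
      set c := g m with hc
      have hl : 0 < (f a - c) / (g a - c) := div_pos (by rw [h3]; linarith) (by linarith)
      let s : ℚ ≃o ℚ := StrictMono.orderIsoOfSurjective (stretch c ((f a - c) / (g a - c)))
        (stretch_strictMono c hl) (stretch_surj c hl)
      have hs : ∀ x, s x = stretch c ((f a - c) / (g a - c)) x := fun x => rfl
      refine ⟨g.trans s, ?_⟩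
      intro x hx
      rw [OrderIso.trans_apply, hs]
      rcases Finset.mem_insert.1 hx with rfl | hx
      · have h4 : ¬ (g x ≤ c) := not_le.2 h2
        rw [stretch, if_neg h4, div_mul_cancel₀ _ (by linarith [h2] : g x - c ≠ 0)]
        ring
      · have h5 : g x ≤ c := g.monotone (Finset.le_max' T x hx)
        rw [stretch, if_pos h5, hg x hx]
    · rw [Finset.not_nonempty_iff_eq_empty] at hT
      subst hT
      refine ⟨OrderIso.addRight (f a - a), ?_⟩
      intro x hx
      have : x = a := by simpa using hx
      subst this
      simp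

end Pool.Agent.Lib.MP_0c183c_co_P9F
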