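import Pool.Agent.Lib.MP_0c183c_co_P9F.PSys

set_option autoImplicit false

/-!
# Far worlds

`FarX W T X`: the blocks `X` of the array `W.P T` have the minimal transcendence degree; all such
arrays have the same ideal and are conjugate.
-/

namespace Pool.Agent.Lib.MP_0c183c_co_P9F

open Pool.Agent.Lib.MP_0c183c_co_P9W Pool.Agent.Lib.MP_0c183c_co_P9G MvPolynomial
open Pool.Agent.Lib.MP_0c183c_co_P9T (Pr off allp fam absb absdir Sp)

variable (W : World)

/-- The far rank. -/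
noncomputable def rkL (X : Finset (Sym2 ℚ)) : ℕ := farRank (rkW W) X

theorem rkL_far : FarRank (rkW W) (rkL W) := farRank_far (psys_world W)

/-- The blocks `X` are far in the world `T`. -/
def FarX (T : Finset ℚ) (X : Finset (Sym2 ℚ)) : Prop := X ⊆ prs T ∧ rkW W T X = rkL W X

/-- The array over `I` is far in the world `T`. -/
def Far (T I : Finset ℚ) : Prop := I ⊆ T ∧ rkW W T (prs I) = rkL W (prs I)

variable {W}

theorem Far.farX {T I : Finset ℚ} (h : Far W T I) : FarX W T (prs I) := ⟨prs_mono h.1, h.2⟩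

theorem FarX.mono {T T' : Finset ℚ} {X : Finset (Sym2 ℚ)} (h : FarX W T X) (hT : T ⊆ T') :
    FarX W T' X :=
  ⟨h.1.trans (prs_mono hT), same_up (psys_world W) (rkL_far W) hT h.1 h.2⟩

theorem FarX.anti {T : Finset ℚ} {X Y : Finset (Sym2 ℚ)} (h : FarX W T Y) (hX : X ⊆ Y) :
    FarX W T X :=
  ⟨hX.trans h.1, same_sub (psys_world W) (rkL_far W) hX h.1 h.2⟩

theorem Far.mono {T T' I : Finset ℚ} (h : Far W T I) (hT : T ⊆ T') : Far W T' I :=
  ⟨h.1.trans hT, (h.farX.mono hT).2⟩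

theorem Far.anti {T I I' : Finset ℚ} (h : Far W T I) (hI : I' ⊆ I) : Far W T I' :=
  ⟨hI.trans h.1, (h.farX.anti (prs_mono hI)).2⟩

theorem exists_far (W : World) (I : Finset ℚ) (T₀ : Finset ℚ) (h : I ⊆ T₀) :
    ∃ T, T₀ ⊆ T ∧ Far W T I := by
  obtain ⟨T, h1, h2⟩ := (rkL_far W).att T₀ (prs I) (prs_mono h)
  exact ⟨T, h1, h.trans h1, h2⟩

/-- Any two far arrays satisfy the same relations. -/
theorem FarX.sp {T T' : Finset ℚ} {X : Finset (Sym2 ℚ)} (h : FarX W T X) (h' : FarX W T' X) :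
    Sp (ZMod 2) (fam (ix X) (W.P T)) (fam (ix X) (W.P T')) := by
  have h1 : Sp (ZMod 2) (fam (ix X) (W.P T)) (fam (ix X) (W.P (T ∪ T'))) :=
    Sp_of_subset W Finset.subset_union_left (ix_subset_allp h.1)
  have h2 : Sp (ZMod 2) (fam (ix X) (W.P T')) (fam (ix X) (W.P (T ∪ T'))) :=
    Sp_of_subset W Finset.subset_union_right (ix_subset_allp h'.1)
  have h3 : rkW W T' X ≤ rkW W (T ∪ T') X := by
    rw [h'.2, (h'.mono Finset.subset_union_right).2]
  exact h1.trans (Pool.Agent.Lib.MP_0c183c_co_P9L.Sp.symm_of_trd h2 h3)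

theorem Far.sp {T T' I : Finset ℚ} (h : Far W T I) (h' : Far W T' I) :
    Sp (ZMod 2) (fam (off I) (W.P T)) (fam (off I) (W.P T')) := by
  rw [off_eq]; exact h.farX.sp h'.farX

/-- Any two far arrays are conjugate. -/
theorem FarX.conj {T T' : Finset ℚ} {X : Finset (Sym2 ℚ)} (h : FarX W T X) (h' : FarX W T' X) :
    ∃ σ : W.Ω ≃ₐ[ZMod 2] W.Ω, ∀ x y : Vx, s(x.1, y.1) ∈ X → σ (W.P T x y) = W.P T' x y := by
  obtain ⟨σ, hσ⟩ := Pool.Agent.Lib.MP_0c183c_co_P9L.Sp.exists_aut (h.sp h') (h'.sp h)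
  exact ⟨σ, fun x y hxy => hσ ⟨(x, y), hxy⟩⟩

theorem Far.conj {T T' I : Finset ℚ} (h : Far W T I) (h' : Far W T' I) :
    ∃ σ : W.Ω ≃ₐ[ZMod 2] W.Ω, ∀ x y : Vx, x.1 ∈ I → y.1 ∈ I → x.1 ≠ y.1 →
      σ (W.P T x y) = W.P T' x y := by
  obtain ⟨σ, hσ⟩ := h.farX.conj h'.farX
  exact ⟨σ, fun x y hx hy hxy => hσ x y (mem_prs.2 ⟨hx, hy, hxy⟩)⟩

/-- The far rank is invariant under increasing maps. -/
theorem rkL_image {S : Finset ℚ} {f : ℚ → ℚ} (hf : StrictMonoOn f (S : Set ℚ))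
    {X : Finset (Sym2 ℚ)} (hX : X ⊆ prs S) : rkL W (X.image (Sym2.map f)) = rkL W X :=
  rkL_hom (psys_world W) (rkL_far W) hf hX

theorem Far.image {T I : Finset ℚ} (h : Far W T I) {f : ℚ → ℚ}
    (hf : StrictMonoOn f (T : Set ℚ)) : Far W (T.image f) (I.image f) := by
  refine ⟨Finset.image_subset_image h.1, ?_⟩
  have hfI : Set.InjOn f I := fun x hx y hy hxy =>
    hf.injOn (Finset.mem_coe.2 (h.1 (Finset.mem_coe.1 hx)))
      (Finset.mem_coe.2 (h.1 (Finset.mem_coe.1 hy))) hxy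
  rw [← image_prs hfI, (psys_world W).hom T f hf _ (prs_mono h.1),
    rkL_image hf (prs_mono h.1)]
  exact h.2

theorem FarX.image {T : Finset ℚ} {X : Finset (Sym2 ℚ)} (h : FarX W T X) {f : ℚ → ℚ}
    (hf : StrictMonoOn f (T : Set ℚ)) : FarX W (T.image f) (X.image (Sym2.map f)) := by
  refine ⟨?_, ?_⟩
  · rw [← image_prs hf.injOn]
    exact Finset.image_subset_image h.1
  · rw [(psys_world W).hom T f hf _ h.1, rkL_image hf h.1]
    exact h.2

/-- Conjugacy over an increasing map: two far arrays of the same order type are conjugate. -/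
theorem Far.conj_map {T T' I : Finset ℚ} {f : ℚ → ℚ} (hf : StrictMonoOn f (I : Set ℚ))
    (h : Far W T I) (h' : Far W T' (I.image f)) :
    ∃ σ : W.Ω ≃+* W.Ω, ∀ x y : Vx, x.1 ∈ I → y.1 ∈ I → x.1 ≠ y.1 →
      σ (W.P T x y) = W.P T' (f x.1, x.2) (f y.1, y.2) := by
  classical
  obtain ⟨g, hg⟩ := exists_orderIso_extend I f hf
  obtain ⟨τ, hτ⟩ := W.aut g
  have h1 : Far W (T.image g) (I.image g) := h.image (g.strictMono.strictMonoOn _)
  have h2 : I.image g = I.image f := Finset.image_congr fun x hx => hg x hx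
  rw [h2] at h1
  obtain ⟨σ, hσ⟩ := h1.conj h'
  refine ⟨τ.trans σ.toRingEquiv, ?_⟩
  intro x y hx hy hxy
  have h3 := hτ T x y (h.1 hx) (h.1 hy)
  have h4 := hσ (g x.1, x.2) (g y.1, y.2) (h2 ▸ Finset.mem_image_of_mem _ hx)
    (h2 ▸ Finset.mem_image_of_mem _ hy) (fun h => hxy (g.injective h))
  rw [RingEquiv.trans_apply, h3]
  change σ _ = _
  rw [h4, hg x.1 hx, hg y.1 hy]

end Pool.Agent.Lib.MP_0c183c_co_P9F
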