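import Pool.Agent.Lib.MP_0c183c_co_P9F.Far
import Pool.Agent.Lib.MP_0c183c_h75B.Corank

set_option autoImplicit false

/-!
# The final contradiction (section 9)

If every array with enough elements at `y` on both outer sides is far, there is no world.
-/

namespace Pool.Agent.Lib.MP_0c183c_co_P9F

open Pool.Agent.Lib.MP_0c183c_co_P9W Pool.Agent.Lib.MP_0c183c_co_P9G MvPolynomial
open Pool.Agent.Lib.MP_0c183c_co_P9T (Pr off allp fam absb absdir Sp)
open Module

/-- `r` independent vectors which are killed by all rows outside `D`. -/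
theorem rank_add_le {Ω α : Type} [Field Ω] [Fintype α] [DecidableEq α] (M : Matrix α α Ω)
    (D : Finset α) {r : ℕ} (v : Fin r → α → Ω) (hv : LinearIndependent Ω v)
    (h : ∀ i, ∀ x, x ∉ D → (M.mulVec (v i)) x = 0) : M.rank + r ≤ Fintype.card α + D.card := by
  classical
  set S := Submodule.span Ω (Set.range v) with hS
  have h1 : finrank Ω S = r := by
    rw [hS, finrank_span_eq_card hv, Fintype.card_fin]
  have h2 := LinearMap.finrank_range_add_finrank_ker M.mulVecLin
  rw [finrank_fintype_fun_eq_card] at h2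
  have h3 : finrank Ω (S.map M.mulVecLin) ≤ D.card := by
    let res : (α → Ω) →ₗ[Ω] (D → Ω) := LinearMap.funLeft Ω Ω (fun d : D => d.1)
    have hinj : Set.InjOn res (S.map M.mulVecLin) := by
      have hzero : ∀ w ∈ S.map M.mulVecLin, ∀ x, x ∉ D → w x = 0 := by
        intro w hw x hx
        obtain ⟨u, hu, rfl⟩ := Submodule.mem_map.1 hw
        have hle : S ≤ LinearMap.ker ((LinearMap.proj x).comp M.mulVecLin) := by
          rw [hS, Submodule.span_le]
          rintro _ ⟨i, rfl⟩
          exact h i x hx
        exact hle hu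
      intro w hw w' hw' hww
      funext x
      by_cases hx : x ∈ D
      · exact congrFun hww ⟨x, hx⟩
      · rw [hzero w hw x hx, hzero w' hw' x hx]
    let res' := res.domRestrict (S.map M.mulVecLin)
    have hinj' : Function.Injective res' := fun a b hab =>
      Subtype.ext (hinj a.2 b.2 hab)
    have := LinearMap.finrank_le_finrank_of_injective hinj'
    rw [finrank_fintype_fun_eq_card, Fintype.card_coe] at this
    exact this
  have h4 := LinearMap.finrank_range_add_finrank_ker (M.mulVecLin.domRestrict S)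
  have h5 : LinearMap.range (M.mulVecLin.domRestrict S) = S.map M.mulVecLin := by
    rw [LinearMap.range_domRestrict]
  have h6 : finrank Ω (LinearMap.ker (M.mulVecLin.domRestrict S)) ≤
      finrank Ω (LinearMap.ker M.mulVecLin) := by
    let j : LinearMap.ker (M.mulVecLin.domRestrict S) →ₗ[Ω] LinearMap.ker M.mulVecLin :=
      { toFun := fun a => ⟨a.1.1, a.2⟩
        map_add' := fun a b => rfl
        map_smul' := fun c a => rfl }
    refine LinearMap.finrank_le_finrank_of_injective (f := j) ?_
    intro a b hab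
    have hab' : a.1.1 = b.1.1 :=
      congrArg (fun z : LinearMap.ker M.mulVecLin => (z : α → Ω)) hab
    exact Subtype.ext (Subtype.ext hab')
  rw [h5] at h4
  rw [Matrix.rank]
  omega

/-- Boolean to `Fin 2`. -/
def b2f (s : Bool) : Fin 2 := if s then 1 else 0

theorem b2f_not (s : Bool) : b2f (!s) = 1 - b2f s := by cases s <;> rfl

theorem sum_fin2 {Ω : Type} [AddCommMonoid Ω] (f : Fin 2 → Ω) : ∑ i, f i = ∑ s : Bool, f (b2f s) := by
  rw [Fin.sum_univ_two, Fintype.sum_bool]
  simp [b2f, add_comm]

variable {W : World}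

/-- `Far` is automatic on at most one element. -/
theorem far_of_card_le_one {T I : Finset ℚ} (h : I ⊆ T) (hI : I.card ≤ 1) : Far W T I := by
  have h0 : prs I = ∅ := by
    ext z
    induction z using Sym2.ind with
    | _ a b =>
      rw [mem_prs]
      constructor
      · rintro ⟨ha, hb, hab⟩
        exact absurd (Finset.card_le_one.1 hI a ha b hb) hab
      · intro hz; exact absurd hz (Finset.notMem_empty _)
  refine ⟨h, ?_⟩
  obtain ⟨T', h1, h2⟩ := (rkL_far W).att T (prs I) (prs_mono h)
  rw [← h2, h0]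
  have : ∀ T₁ : Finset ℚ, Set.range (fam (ix ∅) (W.P T₁)) = ∅ := by
    intro T₁
    rw [range_fam]
    simp [ix]
  rw [rkW, rkW, this, this]

/-- `Fin 2` to Boolean. -/
def f2b (i : Fin 2) : Bool := decide (i = 1)

theorem f2b_b2f (s : Bool) : f2b (b2f s) = s := by cases s <;> rfl

theorem b2f_f2b (i : Fin 2) : b2f (f2b i) = i := by
  fin_cases i <;> rfl

/-- Section 9: a uniform outer threshold contradicts `nocomp`. -/
theorem no_world_of_far (W : World) (E : ℕ)
    (h : ∀ I T : Finset ℚ, I ⊆ T → 2 ≤ I.card → E ≤ (T.filter (fun q => ∀ i ∈ I, q < i)).card →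
      E ≤ (T.filter (fun q => ∀ i ∈ I, i < q)).card → Far W T I) : False := by
  classical
  have : CharP W.Ω 2 := charP_of_injective_algebraMap (algebraMap (ZMod 2) W.Ω).injective 2
  set r := 2 * (3 + 2 * E) with hr
  set m := Pool.Agent.Lib.MP_0c183c_h75B.need r 0 with hm
  let c : Fin m → ℚ := fun i => ((i : ℕ) : ℚ)
  have hc : Function.Injective c := fun i j hij => by
    have : ((i : ℕ) : ℚ) = ((j : ℕ) : ℚ) := hij
    exact Fin.ext (by exact_mod_cast this)
  let DL : Finset ℚ := (Finset.range E).image fun n : ℕ => -(n : ℚ) - 1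
  let DR : Finset ℚ := (Finset.range E).image fun n : ℕ => (m : ℚ) + n
  have hDL : DL.card = E := by
    rw [Finset.card_image_of_injective _ (fun a b hab => by
      have : -(a : ℚ) - 1 = -(b : ℚ) - 1 := hab
      have h2 : (a : ℚ) = b := by linarith
      exact_mod_cast h2), Finset.card_range]
  have hDR : DR.card = E := by
    rw [Finset.card_image_of_injective _ (fun a b hab => by
      have : (m : ℚ) + a = (m : ℚ) + b := hab
      have h2 : (a : ℚ) = b := by linarith
      exact_mod_cast h2), Finset.card_range]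
  have hL : ∀ q ∈ DL, ∀ i : Fin m, q < c i := by
    intro q hq i
    obtain ⟨n, -, rfl⟩ := Finset.mem_image.1 hq
    have h1 : (0 : ℚ) ≤ n := Nat.cast_nonneg n
    have h2 : (0 : ℚ) ≤ c i := Nat.cast_nonneg _
    change -(n : ℚ) - 1 < c i
    linarith
  have hR : ∀ q ∈ DR, ∀ i : Fin m, c i < q := by
    intro q hq i
    obtain ⟨n, -, rfl⟩ := Finset.mem_image.1 hq
    have h1 : (0 : ℚ) ≤ n := Nat.cast_nonneg n
    have h2 : c i < (m : ℚ) := Nat.cast_lt.2 i.2
    change c i < (m : ℚ) + n
    linarith
  let T0 : Finset ℚ := DL ∪ Finset.univ.image c ∪ DR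
  let N : Matrix (Fin m × Fin 2) (Fin m × Fin 2) W.Ω := fun x y =>
    if x.1 = y.1 then 0 else W.P T0 (c x.1, f2b x.2) (c y.1, f2b y.2)
  obtain ⟨A, θ, R, hA, hRf, hRk⟩ := Pool.Agent.Lib.MP_0c183c_h75B.forced_corank N (k := r)
    (by omega) (by rw [Fintype.card_fin])
  set H : Finset ℚ := A.image c with hH
  let T1 : Finset ℚ := DL ∪ H ∪ DR
  have hfar : ∀ T : Finset ℚ, DL ∪ H ∪ DR ⊆ T → Far W T H := by
    intro T hT
    have hHT : H ⊆ T := fun x hx => hT (by simp [hx])
    by_cases hcard : 2 ≤ H.card
    · refine h H T hHT hcard ?_ ?_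
      · rw [← hDL]
        apply Finset.card_le_card
        intro q hq
        rw [Finset.mem_filter]
        refine ⟨hT (by simp [hq]), fun i hi => ?_⟩
        obtain ⟨j, -, rfl⟩ := Finset.mem_image.1 hi
        exact hL q hq j
      · rw [← hDR]
        apply Finset.card_le_card
        intro q hq
        rw [Finset.mem_filter]
        refine ⟨hT (by simp [hq]), fun i hi => ?_⟩
        obtain ⟨j, -, rfl⟩ := Finset.mem_image.1 hi
        exact hR q hq j
    · exact far_of_card_le_one hHT (by omega)
  have hf0 : Far W T0 H := hfar T0 (by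
    intro x hx
    rw [Finset.mem_union, Finset.mem_union] at hx ⊢
    rcases hx with (hx | hx) | hx
    · exact Or.inl (Or.inl hx)
    · obtain ⟨j, -, rfl⟩ := Finset.mem_image.1 hx
      exact Or.inl (Or.inr (Finset.mem_image_of_mem _ (Finset.mem_univ _)))
    · exact Or.inr hx)
  have hf1 : Far W T1 H := hfar T1 subset_rfl
  obtain ⟨σ, hσ⟩ := hf0.conj hf1
  obtain ⟨i₀, hi₀⟩ := hA
  have : Nonempty (Fin m) := ⟨i₀⟩
  let idx : ℚ → Fin m := Function.invFun c
  have hidx : ∀ i, idx (c i) = i := Function.leftInverse_invFun hc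
  let θ' : ℚ → W.Ω := fun q => σ (θ (idx q))
  let b := Module.finBasisOfFinrankEq W.Ω R hRf
  let g : Fin r → Fin m × Fin 2 → W.Ω := fun l => (b l).1
  have hgli : LinearIndependent W.Ω g :=
    b.linearIndependent.map' R.subtype (Submodule.ker_subtype R)
  have hgA : ∀ l, ∀ i ∉ A, ∀ a, g l (i, a) = 0 := fun l => (hRk (g l) (b l).2).1
  have hgeq : ∀ l, ∀ i ∈ A, ∀ a, (N.mulVec (g l)) (i, a) + θ i * g l (i, 1 - a) = 0 :=
    fun l => (hRk (g l) (b l).2).2
  let V : Fin r → Vx → W.Ω := fun l x => if x.1 ∈ H then σ (g l (idx x.1, b2f x.2)) else 0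
  let v : Fin r → (T1 × Bool) → W.Ω := fun l x => V l (x.1.1, x.2)
  have hHT1 : H ⊆ T1 := hf1.1
  have hcH : ∀ i ∈ A, c i ∈ H := fun i hi => Finset.mem_image_of_mem _ hi
  have hV : ∀ l, ∀ i : Fin m, i ∈ A → ∀ s, V l (c i, s) = σ (g l (i, b2f s)) := by
    intro l i hi s
    simp only [V]
    rw [if_pos (hcH i hi), hidx]
  have hvli : LinearIndependent W.Ω v := by
    rw [Fintype.linearIndependent_iff]
    intro z hz
    have h1 : ∑ l, σ.symm (z l) • g l = 0 := by
      funext x
      obtain ⟨j, a⟩ := x
      rw [Finset.sum_apply, Pi.zero_apply]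
      by_cases hj : j ∈ A
      · have h2 := congrFun hz (⟨c j, hHT1 (hcH j hj)⟩, f2b a)
        rw [Finset.sum_apply, Pi.zero_apply] at h2
        apply σ.injective
        rw [map_sum, map_zero, ← h2]
        refine Finset.sum_congr rfl fun l _ => ?_
        simp only [Pi.smul_apply, smul_eq_mul, map_mul, AlgEquiv.apply_symm_apply, v]
        rw [hV l j hj, b2f_f2b]
      · refine Finset.sum_eq_zero fun l _ => ?_
        rw [Pi.smul_apply, hgA l j hj, smul_zero]
    have h3 := Fintype.linearIndependent_iff.1 hgli _ h1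
    intro l
    have := h3 l
    rwa [map_eq_zero_iff _ σ.symm.injective] at this
  let D : Finset (T1 × Bool) := Finset.univ.filter fun x => x.1.1 ∉ H
  have hkey : ∀ l, ∀ x, x ∉ D → ((completed T1 (W.P T1) θ').mulVec (v l)) x = 0 := by
    rintro l ⟨⟨q, hq⟩, a⟩ hx
    have hqH : q ∈ H := by
      by_contra hcon
      exact hx (Finset.mem_filter.2 ⟨Finset.mem_univ _, hcon⟩)
    obtain ⟨i, hi, rfl⟩ := Finset.mem_image.1 hqH
    let cv : Vx → Vx → W.Ω := fun x y =>
      if x.1 = y.1 then (if x.2 = y.2 then 0 else θ' x.1) else W.P T1 x y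
    have e1 : ((completed T1 (W.P T1) θ').mulVec (v l)) (⟨c i, hq⟩, a) =
        ∑ y ∈ T1, ∑ s : Bool, cv (c i, a) (y, s) * V l (y, s) := by
      rw [Matrix.mulVec, dotProduct, Fintype.sum_prod_type, ← Finset.sum_coe_sort T1]
      refine Finset.sum_congr rfl fun y _ => Finset.sum_congr rfl fun s _ => ?_
      congr 1
      simp only [completed, cv]
      by_cases hy : c i = y.1
      · rw [if_pos (Subtype.ext hy), if_pos hy]
      · rw [if_neg (fun hh => hy (congrArg Subtype.val hh)), if_neg hy]
    have e2 : ∑ y ∈ T1, ∑ s : Bool, cv (c i, a) (y, s) * V l (y, s) =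
        ∑ y ∈ H, ∑ s : Bool, cv (c i, a) (y, s) * V l (y, s) := by
      symm
      apply Finset.sum_subset hHT1
      intro y _ hy
      refine Finset.sum_eq_zero fun s _ => ?_
      simp only [V]
      rw [if_neg hy, mul_zero]
    have e3 : ∑ y ∈ H, ∑ s : Bool, cv (c i, a) (y, s) * V l (y, s) =
        ∑ j : Fin m, ∑ s : Bool, (if i = j then (if a = s then 0 else σ (θ i)) else
          σ (W.P T0 (c i, a) (c j, s))) * σ (g l (j, b2f s)) := by
      rw [hH, Finset.sum_image (fun x _ y _ hxy => hc hxy)]
      rw [← Finset.sum_subset (Finset.subset_univ A)]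
      · refine Finset.sum_congr rfl fun j hj => Finset.sum_congr rfl fun s _ => ?_
        rw [hV l j hj]
        congr 1
        simp only [cv]
        by_cases hij : i = j
        · subst hij
          rw [if_pos rfl, if_pos rfl]
          simp only [θ']
          rw [hidx]
        · rw [if_neg hij, if_neg (fun hh => hij (hc hh))]
          exact (hσ (c i, a) (c j, s) (hcH i hi) (hcH j hj) (fun hh => hij (hc hh))).symm
      · intro j _ hj
        refine Finset.sum_eq_zero fun s _ => ?_
        rw [hgA l j hj, map_zero, mul_zero]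
    have e4 : ∑ j : Fin m, ∑ s : Bool, (if i = j then (if a = s then 0 else σ (θ i)) else
          σ (W.P T0 (c i, a) (c j, s))) * σ (g l (j, b2f s)) =
        σ ((N.mulVec (g l)) (i, b2f a) + θ i * g l (i, 1 - b2f a)) := by
      have e5 : θ i * g l (i, 1 - b2f a) =
          ∑ j : Fin m, ∑ s : Bool, (if i = j then (if a = s then 0 else θ i) else 0) *
            g l (j, b2f s) := by
        rw [Finset.sum_eq_single i]
        · rw [Fintype.sum_bool]
          cases a <;> simp [b2f]
        · intro j _ hj
          simp [Ne.symm hj]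
        · intro hh; exact absurd (Finset.mem_univ _) hh
      rw [e5, Matrix.mulVec, dotProduct, Fintype.sum_prod_type, ← Finset.sum_add_distrib, map_sum]
      refine Finset.sum_congr rfl fun j _ => ?_
      rw [sum_fin2, ← Finset.sum_add_distrib, map_sum]
      refine Finset.sum_congr rfl fun s _ => ?_
      rw [← add_mul, map_mul]
      congr 1
      simp only [N]
      by_cases hij : i = j
      · subst hij
        rw [if_pos rfl, if_pos rfl, if_pos rfl, zero_add]
        split_ifs <;> simp
      · rw [if_neg hij, if_neg hij, if_neg hij, add_zero, f2b_b2f, f2b_b2f]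
    rw [e1, e2, e3, e4, hgeq l i hi, map_zero]
  have h1 := rank_add_le (completed T1 (W.P T1) θ') D v hvli hkey
  have h2 := W.nocomp T1 θ'
  have h3 : Fintype.card (T1 × Bool) = 2 * T1.card := by
    rw [Fintype.card_prod, Fintype.card_coe, Fintype.card_bool, mul_comm]
  have h4 : D.card ≤ 4 * E := by
    have h5 : D ⊆ (((Finset.univ : Finset T1).filter fun x => x.1 ∉ H) ×ˢ
        (Finset.univ : Finset Bool)) := by
      intro x hx
      have := (Finset.mem_filter.1 hx).2
      simp [this]
    refine (Finset.card_le_card h5).trans ?_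
    rw [Finset.card_product, Finset.card_univ, Fintype.card_bool]
    have h6 : ((Finset.univ : Finset T1).filter fun x => x.1 ∉ H).card ≤ (DL ∪ DR).card := by
      refine Finset.card_le_card_of_injOn (fun x => x.1) ?_ (fun x _ y _ hxy => Subtype.ext hxy)
      intro x hx
      have hx' := (Finset.mem_filter.1 (Finset.mem_coe.1 hx)).2
      have hx2 : x.1 ∈ DL ∪ H ∪ DR := x.2
      rw [Finset.mem_coe, Finset.mem_union]
      rw [Finset.mem_union, Finset.mem_union] at hx2
      tauto
    have h7 := Finset.card_union_le DL DR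
    omega
  rw [h3] at h1
  omega

end Pool.Agent.Lib.MP_0c183c_co_P9F
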