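import Pool.Agent.Lib.MP_0c183c_co_P9L.Loci2
import Pool.Agent.Lib.MP_0c183c_co_P9W.World
import Pool.Agent.Lib.MP_0c183c_co_P9T.Dir
import Pool.Agent.Lib.MP_0c183c_co_P9G.Glue
import Pool.Agent.Lib.MP_0c183c_co_P9F.Ext

set_option autoImplicit false

/-!
# The rank functions of a `World`

`rkW W T X` is the transcendence degree over `ZMod 2` of the blocks `X` (a finite set of unordered
pairs of elements) of the array `W.P T`.
-/

namespace Pool.Agent.Lib.MP_0c183c_co_P9F

open Pool.Agent.Lib.MP_0c183c_co_P9W Pool.Agent.Lib.MP_0c183c_co_P9G MvPolynomial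
open Pool.Agent.Lib.MP_0c183c_co_P9L (trd trd_mono trd_union_add_le trd_image_ringEquiv)
open Pool.Agent.Lib.MP_0c183c_co_P9T (Pr off allp fam absb absdir Sp)

/-- The index pairs over a set of blocks. -/
def ix (X : Finset (Sym2 ℚ)) : Set (Pr ℚ) := {p | s(p.1.1, p.2.1) ∈ X}

theorem mem_ix {X : Finset (Sym2 ℚ)} {p : Pr ℚ} : p ∈ ix X ↔ s(p.1.1, p.2.1) ∈ X := Iff.rfl

theorem off_eq (I : Finset ℚ) : off I = ix (prs I) := by
  ext p
  rw [mem_ix, mem_prs]
  rfl

theorem ix_mono {X Y : Finset (Sym2 ℚ)} (h : X ⊆ Y) : ix X ⊆ ix Y := fun _ hp => h hp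

theorem ix_subset_allp {X : Finset (Sym2 ℚ)} {T : Finset ℚ} (h : X ⊆ prs T) : ix X ⊆ allp T := by
  intro p hp
  have := mem_prs.1 (h hp)
  exact ⟨this.1, this.2.1⟩

theorem ix_finite (X : Finset (Sym2 ℚ)) : (ix X).Finite := by
  classical
  let S : Finset ℚ := X.biUnion Sym2.toFinset
  refine Set.Finite.subset (((S ×ˢ (Finset.univ : Finset Bool)) ×ˢ
    (S ×ˢ (Finset.univ : Finset Bool))).finite_toSet) ?_
  rintro ⟨⟨a, i⟩, ⟨b, j⟩⟩ h
  have h' : s(a, b) ∈ X := h
  have ha : a ∈ S := Finset.mem_biUnion.2 ⟨_, h', by simp⟩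
  have hb : b ∈ S := Finset.mem_biUnion.2 ⟨_, h', by simp⟩
  simp [ha, hb]

instance (X : Finset (Sym2 ℚ)) : Finite (ix X) := (ix_finite X).to_subtype

theorem off_finite (I : Finset ℚ) : (off I).Finite := by
  rw [off_eq]; exact ix_finite _

instance (I : Finset ℚ) : Finite (off I) := (off_finite I).to_subtype

theorem range_fam {Ω : Type} (B : Set (Pr ℚ)) (M : Vx → Vx → Ω) :
    Set.range (fam B M) = (fun p : Pr ℚ => M p.1 p.2) '' B := by
  ext z
  constructor
  · rintro ⟨p, rfl⟩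
    exact ⟨p.1, p.2, rfl⟩
  · rintro ⟨p, hp, rfl⟩
    exact ⟨⟨p, hp⟩, rfl⟩

variable (W : World)

/-- Deletion is a specialisation. -/
theorem Sp_erase {T : Finset ℚ} {b : ℚ} (hb : b ∈ T) {B : Set (Pr ℚ)}
    (hB : B ⊆ allp (T.erase b)) : Sp (ZMod 2) (fam B (W.P (T.erase b))) (fam B (W.P T)) := by
  obtain ⟨t, ht, habs⟩ := W.abs T b hb
  have h1 : fam B (W.P (T.erase b)) = fam B (absb (W.P T) b t) := by
    funext q
    exact habs q.1.1 q.1.2 (hB q.2).1 (hB q.2).2
  rw [h1]
  refine Pool.Agent.Lib.MP_0c183c_co_P9T.sp_delete (W.P T) T b hb B (fun p hp => ?_) t ht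
  exact ⟨Finset.mem_of_mem_erase (hB hp).1, Finset.mem_of_mem_erase (hB hp).2⟩

/-- More elements at `y`: a specialisation. -/
theorem Sp_of_subset {T T' : Finset ℚ} (h : T ⊆ T') {B : Set (Pr ℚ)} (hB : B ⊆ allp T) :
    Sp (ZMod 2) (fam B (W.P T)) (fam B (W.P T')) := by
  classical
  induction T' using Finset.strongInduction with
  | H T' ih =>
    by_cases hTT : T = T'
    · subst hTT
      exact fun p hp => hp
    · obtain ⟨b, hb, hbT⟩ : ∃ b ∈ T', b ∉ T := by
        by_contra hcon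
        push Not at hcon
        exact hTT (Finset.Subset.antisymm h hcon)
      have h1 : T ⊆ T'.erase b := fun x hx =>
        Finset.mem_erase.2 ⟨fun h => hbT (h ▸ hx), h hx⟩
      have h2 := ih (T'.erase b) (Finset.erase_ssubset hb) h1
      have h3 := Sp_erase W hb (B := B) fun p hp => ⟨h1 (hB hp).1, h1 (hB hp).2⟩
      exact h2.trans h3

variable {W} in
/-- Restriction of a specialisation. -/
theorem Sp_restrict {k R R' : Type*} [CommRing k] [CommRing R] [CommRing R'] [Algebra k R]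
    [Algebra k R'] {M : Vx → Vx → R} {M' : Vx → Vx → R'} {A B : Set (Pr ℚ)} (hAB : A ⊆ B)
    (h : Sp k (fam B M) (fam B M')) : Sp k (fam A M) (fam A M') :=
  h.comp (fun q : A => (⟨q.1, hAB q.2⟩ : B))

/-- The rank function of the world. -/
noncomputable def rkW (T : Finset ℚ) (X : Finset (Sym2 ℚ)) : ℕ :=
  trd (ZMod 2) (Set.range (fam (ix X) (W.P T)))

/-- The automorphism of the big field over an order automorphism respects `ZMod 2`. -/
theorem ringEquiv_algebraMap {Ω : Type} [Field Ω] [Algebra (ZMod 2) Ω] (σ : Ω ≃+* Ω)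
    (c : ZMod 2) : σ (algebraMap (ZMod 2) Ω c) = algebraMap (ZMod 2) Ω c := by
  have : (σ : Ω →+* Ω).comp (algebraMap (ZMod 2) Ω) = algebraMap (ZMod 2) Ω :=
    Subsingleton.elim _ _
  exact congrFun (congrArg DFunLike.coe this) c

theorem psys_world : PSys (rkW W) where
  mono := by
    intro T X Y h _
    apply trd_mono (Set.finite_range _)
    rw [range_fam, range_fam]
    exact Set.image_mono (ix_mono h)
  submod := by
    intro T X Y _ _
    have h1 : Set.range (fam (ix (X ∪ Y)) (W.P T)) =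
        Set.range (fam (ix X) (W.P T)) ∪ Set.range (fam (ix Y) (W.P T)) := by
      rw [range_fam, range_fam, range_fam, ← Set.image_union]
      congr 1
      ext p
      simp [ix]
    have h2 : ∀ Z : Finset (Sym2 ℚ), X ∩ Y ⊆ Z → Set.range (fam (ix (X ∩ Y)) (W.P T)) ⊆
        Set.range (fam (ix Z) (W.P T)) := by
      intro Z hZ
      rw [range_fam, range_fam]
      exact Set.image_mono (ix_mono hZ)
    have h3 := trd_union_add_le (k := ZMod 2) (Set.finite_range (fam (ix X) (W.P T)))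
      (Set.finite_range (fam (ix Y) (W.P T))) (h2 X Finset.inter_subset_left)
      (h2 Y Finset.inter_subset_right)
    rw [← h1] at h3
    exact h3
  anti := fun T T' X h hX => by
    have h1 := Sp_of_subset W h (ix_subset_allp hX)
    exact Pool.Agent.Lib.MP_0c183c_co_P9L.Sp.trd_le h1
  hom := by
    intro T f hf X hX
    obtain ⟨g, hg⟩ := exists_orderIso_extend T f hf
    obtain ⟨σ, hσ⟩ := W.aut g
    have hTi : T.image f = T.image g := Finset.image_congr fun x hx => (hg x hx).symm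
    have h1 : Set.range (fam (ix (X.image (Sym2.map f))) (W.P (T.image f))) =
        σ '' Set.range (fam (ix X) (W.P T)) := by
      rw [range_fam, range_fam, hTi, map_congr (fun x hx => (hg x hx).symm) hX]
      ext w
      constructor
      · rintro ⟨⟨⟨a, i⟩, ⟨b, j⟩⟩, hp, rfl⟩
        have hp' : s(a, b) ∈ X.image (Sym2.map g) := hp
        obtain ⟨z, hz, hzz⟩ := Finset.mem_image.1 hp'
        have h2 : z = s(g.symm a, g.symm b) := by
          have h3 : Sym2.map g z = Sym2.map g s(g.symm a, g.symm b) := by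
            rw [hzz]; simp
          exact Sym2.map.injective g.injective h3
        rw [h2] at hz
        have h4 := mem_prs.1 (hX hz)
        have h5 := hσ T (g.symm a, i) (g.symm b, j) h4.1 h4.2.1
        refine ⟨_, ⟨((g.symm a, i), (g.symm b, j)), hz, rfl⟩, ?_⟩
        rw [h5]
        simp
      · rintro ⟨_, ⟨⟨⟨a, i⟩, ⟨b, j⟩⟩, hp, rfl⟩, rfl⟩
        have h4 := mem_prs.1 (hX hp)
        have h5 := hσ T (a, i) (b, j) h4.1 h4.2.1
        refine ⟨((g a, i), (g b, j)), ?_, h5.symm⟩
        exact Finset.mem_image.2 ⟨s(a, b), hp, by simp⟩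
    change trd _ _ = trd _ _
    rw [h1]
    exact trd_image_ringEquiv σ _
  restr := by
    intro T T' X Y h hXY hY heq
    have h1 := Sp_of_subset W h (ix_subset_allp hY)
    have h2 := Pool.Agent.Lib.MP_0c183c_co_P9L.Sp.symm_of_trd h1 (le_of_eq heq.symm)
    have h3 := Sp_restrict (ix_mono hXY) (show Sp (ZMod 2) _ _ from h2)
    have h4 := Sp_of_subset W h (ix_subset_allp (hXY.trans hY))
    exact le_antisymm (Pool.Agent.Lib.MP_0c183c_co_P9L.Sp.trd_le h4)
      (Pool.Agent.Lib.MP_0c183c_co_P9L.Sp.trd_le h3)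

end Pool.Agent.Lib.MP_0c183c_co_P9F
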