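import Pool.Agent.Lib.MP_0c183c_co_P9F.Final

set_option autoImplicit false

/-!
# The top of the argument: in every world all near gaps are larger (`nstar`), and the numeric end
-/

namespace Pool.Agent.Lib.MP_0c183c_co_P9F

open Pool.Agent.Lib.MP_0c183c_co_P9W Pool.Agent.Lib.MP_0c183c_co_P9G

/-- In every near world the block `a b` has at least `beta + 1` degrees of freedom over the other
blocks. -/
def NStar (W : World) : Prop :=
  ∀ (J : Finset ℚ) (a b : ℚ) (T : Finset ℚ), a < b → (∀ q ∈ T, ¬ (a < q ∧ q < b)) →
    insert a (insert b J) ⊆ T → a ∉ J → b ∉ J →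
    rkL W ((prs (insert a (insert b J))).erase s(a, b)) + beta (rkL W) + 1 ≤
      rkW W T (prs (insert a (insert b J)))

/-- `(*)` for one near world gives the uniform threshold and a contradiction. -/
theorem nstar (W : World) : NStar W := by
  intro J a b T hab hT hJT ha hb
  by_contra hcon
  have hstar : rkW W T (prs (insert a (insert b J))) ≤
      rkL W ((prs (insert a (insert b J))).erase s(a, b)) + beta (rkL W) := by omega
  obtain ⟨E, hE⟩ := uniform (psys_world W) (rkL_far W) hab hT hJT ha hb hstar
  exact no_world_of_far W E fun I T hIT _ h1 h2 => ⟨hIT, hE I T hIT h1 h2 _ subset_rfl⟩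

end Pool.Agent.Lib.MP_0c183c_co_P9F
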